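import Pool.Agent.Helper764.CvDefs
import Pool.Agent.Helper764.CvAsm
import Pool.Agent.Helper764.CvNec
import Pool.Agent.Helper764.CvEx
import Pool.Agent.Helper764.CvRnd
import Pool.Agent.Helper764.CvCont

set_option autoImplicit false
open MeasureTheory Filter Set
open scoped Topology

namespace Pool.Agent.Results.MP_81397d_pr.Characterisation

open Pool.Agent.Helper764.Cv

theorem covariance_iff (d : ℕ) (S : Sp d → ℝ) :
    IsCovariance d S ↔
      ∃ m : ℝ → ℝ, Tendsto m (𝓝[>] 0) (𝓝 0) ∧ FiniteInequalities d S m := by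
  constructor
  · exact necessity
  · rintro ⟨m, hm, h⟩
    exact isCovariance_of_finiteLaws hm (finiteLaws_of_inequalities h)

theorem half_ne {d : ℕ} {Ω : Type} [MeasurableSpace Ω] {P : Measure Ω} [IsProbabilityMeasure P]
    {X : Ω → Cl d} (hX : Measurable X) (S : Sp d → ℝ)
    (h : ∀ x y : Sp d, P.real {ω | x ∈ (X ω).set ∧ y ∈ (X ω).set} = S (x - y)) (x y : Sp d) :
    2⁻¹ * P.real {ω | ¬ (x ∈ (X ω).set ↔ y ∈ (X ω).set)} = S 0 - S (x - y) := by
  have hm : ∀ z : Sp d, MeasurableSet {ω | z ∈ (X ω).set} := fun z =>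
    hX (necessity_meas_pt z)
  have h0 : ∀ z : Sp d, P.real {ω | z ∈ (X ω).set} = S 0 := by
    intro z
    have := h z z
    simpa using this
  have e : {ω | ¬ (x ∈ (X ω).set ↔ y ∈ (X ω).set)}
      = ({ω | x ∈ (X ω).set} \ {ω | x ∈ (X ω).set ∧ y ∈ (X ω).set}) ∪
        ({ω | y ∈ (X ω).set} \ {ω | x ∈ (X ω).set ∧ y ∈ (X ω).set}) := by
    ext ω
    simp only [Set.mem_setOf_eq, Set.mem_union, Set.mem_diff]
    tauto
  have hxy : MeasurableSet {ω | x ∈ (X ω).set ∧ y ∈ (X ω).set} := (hm x).inter (hm y)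
  have hd : Disjoint ({ω | x ∈ (X ω).set} \ {ω | x ∈ (X ω).set ∧ y ∈ (X ω).set})
      ({ω | y ∈ (X ω).set} \ {ω | x ∈ (X ω).set ∧ y ∈ (X ω).set}) := by
    rw [Set.disjoint_left]
    intro ω h1 h2
    simp only [Set.mem_setOf_eq, Set.mem_diff] at h1 h2
    tauto
  have hs1 : {ω | x ∈ (X ω).set ∧ y ∈ (X ω).set} ⊆ {ω | x ∈ (X ω).set} := fun ω hω => hω.1
  have hs2 : {ω | x ∈ (X ω).set ∧ y ∈ (X ω).set} ⊆ {ω | y ∈ (X ω).set} := fun ω hω => hω.2
  have k1 := measureReal_diff (μ := P) hs1 hxy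
  have k2 := measureReal_diff (μ := P) hs2 hxy
  rw [e, measureReal_union hd ((hm y).diff hxy), k1, k2, h0, h0, h]
  ring

theorem variogram_iff (d : ℕ) (g : Sp d → ℝ) :
    IsVariogram d g ↔ g 0 = 0 ∧ ∃ (p : ℝ) (m : ℝ → ℝ), Tendsto m (𝓝[>] 0) (𝓝 0) ∧
      FiniteInequalities d (fun h => p - g h) m := by
  constructor
  · rintro ⟨Ω, i1, P, X, hP, hX, h⟩
    obtain ⟨C, -, hC⟩ := covariance_continuous P X hX
    have h1 : ∀ x y : Sp d, g (x - y) = C 0 - C (x - y) := fun x y => by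
      rw [← h x y, half_ne hX.measurable C hC]
    have h2 : ∀ z : Sp d, g z = C 0 - C z := fun z => by simpa using h1 z 0
    refine ⟨by rw [h2]; ring, C 0, ?_⟩
    rw [← covariance_iff]
    refine ⟨Ω, i1, P, X, hP, hX, fun x y => ?_⟩
    rw [hC]
    simp only [h2]
    ring
  · rintro ⟨h0, p, hm⟩
    obtain ⟨Ω, i1, P, X, hP, hX, h⟩ := (covariance_iff d _).2 hm
    refine ⟨Ω, i1, P, X, hP, hX, fun x y => ?_⟩
    rw [half_ne hX.measurable (fun h => p - g h) h]
    simp [h0]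

theorem not_sufficient (d : ℕ) (hd : 1 ≤ d) :
    ∃ S : Sp d → ℝ, Continuous S ∧ McMillanInequalities d S ∧ ¬ IsCovariance d S := by
  obtain ⟨A, V, hA, hper, hV, hV1, hV2, h1, h2, h3, h4⟩ := exists_example
  refine ⟨fun h => 4⁻¹ * G A (h ⟨0, hd⟩), ?_, ?_, ?_⟩
  · have := continuous_G A hA.measurableSet
    fun_prop
  · intro T a c h
    exact mcmillan_G ⟨0, hd⟩ A hA.measurableSet hper T a c h
  · exact not_covariance ⟨0, hd⟩ A V hA hper hV hV1 hV2 h1 h2 h3 h4

/-- Characterisation of the covariances and of the variograms of stationary random closed sets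
in `ℝ^d`, and the fact that continuity together with all the McMillan inequalities (the
inequalities without the closedness modulus) is not sufficient in any dimension. -/
theorem result :
    (∀ (d : ℕ) (S : Sp d → ℝ), IsCovariance d S ↔
      ∃ m : ℝ → ℝ, Tendsto m (𝓝[>] 0) (𝓝 0) ∧ FiniteInequalities d S m) ∧
    (∀ (d : ℕ) (g : Sp d → ℝ), IsVariogram d g ↔
      g 0 = 0 ∧ ∃ (p : ℝ) (m : ℝ → ℝ), Tendsto m (𝓝[>] 0) (𝓝 0) ∧
        FiniteInequalities d (fun h => p - g h) m) ∧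
    (∀ d : ℕ, 1 ≤ d →
      ∃ S : Sp d → ℝ, Continuous S ∧ McMillanInequalities d S ∧ ¬ IsCovariance d S) :=
  ⟨covariance_iff, variogram_iff, not_sufficient⟩

end Pool.Agent.Results.MP_81397d_pr.Characterisation
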